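import Mathlib
import Pool.Agent.H68R2.BP.Props2

/-!
BP `K_mat`: the compressions satisfy the hypothesis of the finite dimensional decomposition.
-/

open scoped ComplexOrder InnerProductSpace ComplexConjugate Topology
open Finset Filter

noncomputable section

namespace H68R2.BP

open H759R2.Kad H744R2.KZ

namespace Kmataux

variable {H : Type} [NormedAddCommGroup H] [InnerProductSpace ℂ H] [CompleteSpace H]
  {S κ : Type} [NormedAddCommGroup S] [InnerProductSpace ℂ S] [CompleteSpace S]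
  {b : HilbertBasis κ ℂ H} {l r : (H →L[ℂ] H) → (S →L[ℂ] S)} {th : κ → κ → S}

theorem orth [DecidableEq κ] (hm : MinRep b l r th) (F : Finset κ) :
    Orthonormal ℂ (fun t : F × F => th t.1 t.2) := by
  rw [orthonormal_iff_ite]
  rintro ⟨p', q'⟩ ⟨p, q⟩
  have h := hm.inner 1 1 p q p' q'
  rw [hm.l_one, hm.r_one] at h
  simp only [one_apply_eq_self] at h
  have hb := b.orthonormal
  rw [orthonormal_iff_ite] at hb
  rw [hb, hb] at h
  simp only [h, Prod.mk.injEq]
  by_cases h1 : p' = p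
  · by_cases h2 : q' = q
    · simp [h1, h2]
    · have h2' : (q' : κ) ≠ q := fun e => h2 (Subtype.ext e)
      simp [h2, h2']
  · have h1' : (p' : κ) ≠ p := fun e => h1 (Subtype.ext e)
    simp [h1, h1']

theorem norm_sum {ι : Type} [Fintype ι] {v : ι → S} (hv : Orthonormal ℂ v) (c : ι → ℂ) :
    ‖∑ i, c i • v i‖ = √(∑ i, ‖c i‖ ^ 2) := by
  rw [eq_comm, Real.sqrt_eq_iff_mul_self_eq (Finset.sum_nonneg fun i _ => by positivity)
    (norm_nonneg _)]
  have h := hv.inner_sum c c Finset.univ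
  have h2 := inner_self_eq_norm_sq_to_K (𝕜 := ℂ) (∑ i, c i • v i)
  rw [h] at h2
  have h3 : ((‖∑ i, c i • v i‖ * ‖∑ i, c i • v i‖ : ℝ) : ℂ) = ((∑ i, ‖c i‖ ^ 2 : ℝ) : ℂ) := by
    push_cast
    have : ((‖∑ i, c i • v i‖ : ℂ)) * ‖∑ i, c i • v i‖ = ∑ i, conj (c i) * c i := by
      rw [h2]
      simp [sq]
    rw [this]
    refine Finset.sum_congr rfl fun i _ => ?_
    rw [mul_comm, Complex.mul_conj]
    rw [Complex.normSq_eq_norm_sq]
    push_cast
    rfl
  exact_mod_cast h3.symm

end Kmataux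

open Kmataux in
theorem prove_K_mat : K_mat := by
  intro H _ _ _ S κ _ _ _ b l r th hm ι _ x F _ A B
  have ho := orth hm F
  set k : S := ∑ t : F × F, A t.1 t.2 • th t.1 t.2 with hk
  set h : S := ∑ t : F × F, conj (B t.2 t.1) • th t.1 t.2 with hh
  have nk : ‖k‖ = √(fr A) := by
    rw [hk, norm_sum ho (fun t => A t.1 t.2), Fintype.sum_prod_type]
    rfl
  have nh : ‖h‖ = √(fr B) := by
    rw [hh, norm_sum ho (fun t => conj (B t.2 t.1)), Fintype.sum_prod_type_right]
    simp only [RCLike.norm_conj]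
    rfl
  have key : ⟪h, TT l r x k⟫_ℂ =
      ∑ i, ((Matrix.of fun p q : F => ⟪b p, x i (b q)⟫_ℂ) * A *
      (Matrix.of fun p q : F => ⟪b p, x i (b q)⟫_ℂ).conjTranspose * B).trace := by
    have e1 : TT l r x k = ∑ i, l (x i) (r (x i) k) := by
      simp [TT]
    rw [e1, inner_sum]
    refine Finset.sum_congr rfl fun i _ => ?_
    rw [hk, hh, map_sum, map_sum, sum_inner]
    simp only [inner_sum, map_smul, inner_smul_left, inner_smul_right, hm.inner,
      Complex.conj_conj, Matrix.trace, Matrix.diag_apply, Matrix.mul_apply,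
      Matrix.conjTranspose_apply, Matrix.of_apply, Fintype.sum_prod_type, RCLike.star_def,
      Finset.sum_mul]
    refine Finset.sum_congr rfl fun p _ => Finset.sum_congr rfl fun p' _ => ?_
    rw [Finset.sum_comm]
    refine Finset.sum_congr rfl fun q _ => Finset.sum_congr rfl fun q' _ => ?_
    ring
  rw [← key, ← nk, ← nh]
  calc ‖⟪h, TT l r x k⟫_ℂ‖ ≤ ‖h‖ * ‖TT l r x k‖ := norm_inner_le_norm _ _
    _ ≤ ‖h‖ * (‖TT l r x‖ * ‖k‖) := by
        gcongr
        exact ContinuousLinearMap.le_opNorm _ _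
    _ = ‖TT l r x‖ * ‖k‖ * ‖h‖ := by ring

end H68R2.BP
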