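import Mathlib
import Pool.Agent.H68R2.BP.Props2

/-!
BP `S_onef`: one application of the decomposition (finite continuous case).
-/

open scoped ComplexOrder InnerProductSpace ComplexConjugate Topology
open Finset Filter

noncomputable section

namespace H68R2.BP

open H759R2.Kad H744R2.KZ

namespace Sonefaux

variable {H : Type} [NormedAddCommGroup H] [InnerProductSpace ℂ H] [CompleteSpace H]

theorem sum_sq_eq {ι : Type} [Fintype ι] (a : ι → (H →L[ℂ] H)) (ξ : H) :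
    ∑ i, ‖a i ξ‖ ^ 2 = (⟪ξ, (∑ i, star (a i) * a i) ξ⟫_ℂ).re := by
  simp only [ContinuousLinearMap.sum_apply, inner_sum, Complex.re_sum]
  refine Finset.sum_congr rfl fun i _ => ?_
  have : (star (a i) * a i) ξ = (ContinuousLinearMap.adjoint (a i)) (a i ξ) := rfl
  rw [this, ContinuousLinearMap.adjoint_inner_right, inner_self_eq_norm_sq_to_K]
  norm_cast

theorem sum_sq_le {ι : Type} [Fintype ι] (a : ι → (H →L[ℂ] H)) (ξ : H) :
    ∑ i, ‖a i ξ‖ ^ 2 ≤ colN a * ‖ξ‖ ^ 2 := by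
  rw [sum_sq_eq]
  calc (⟪ξ, (∑ i, star (a i) * a i) ξ⟫_ℂ).re ≤ ‖⟪ξ, (∑ i, star (a i) * a i) ξ⟫_ℂ‖ :=
        Complex.re_le_norm _
    _ ≤ ‖ξ‖ * ‖(∑ i, star (a i) * a i) ξ‖ := norm_inner_le_norm _ _
    _ ≤ ‖ξ‖ * (‖∑ i, star (a i) * a i‖ * ‖ξ‖) := by
        gcongr
        exact ContinuousLinearMap.le_opNorm _ _
    _ = colN a * ‖ξ‖ ^ 2 := by
        unfold colN
        ring

theorem colN_nonneg {ι : Type} [Fintype ι] (a : ι → (H →L[ℂ] H)) : 0 ≤ colN a := norm_nonneg _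

theorem rowN_nonneg {ι : Type} [Fintype ι] (a : ι → (H →L[ℂ] H)) : 0 ≤ rowN a := norm_nonneg _

theorem colN_le {ι : Type} [Fintype ι] (a : ι → (H →L[ℂ] H)) (c : ℝ) (hc : 0 ≤ c)
    (h : ∀ ξ, ∑ i, ‖a i ξ‖ ^ 2 ≤ c * ‖ξ‖ ^ 2) : colN a ≤ c := by
  unfold colN
  refine ContinuousLinearMap.opNorm_le_bound _ hc fun ξ => ?_
  set T := ∑ i, star (a i) * a i with hT
  have key : ‖T ξ‖ ^ 2 ≤ c * ‖T ξ‖ * ‖ξ‖ := by
    have e1 : ((‖T ξ‖ ^ 2 : ℝ) : ℂ) = ∑ i, ⟪a i (T ξ), a i ξ⟫_ℂ := by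
      have : ⟪T ξ, T ξ⟫_ℂ = ((‖T ξ‖ : ℂ)) ^ 2 := inner_self_eq_norm_sq_to_K _
      push_cast
      rw [← this]
      conv_lhs => rw [hT]
      rw [← hT]
      have e2 : (∑ i, star (a i) * a i) ξ = ∑ i, (ContinuousLinearMap.adjoint (a i)) (a i ξ) := by
        simp only [ContinuousLinearMap.sum_apply]
        rfl
      rw [show ⟪T ξ, T ξ⟫_ℂ = ⟪T ξ, (∑ i, star (a i) * a i) ξ⟫_ℂ from rfl, e2, inner_sum]
      refine Finset.sum_congr rfl fun i _ => ?_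
      rw [ContinuousLinearMap.adjoint_inner_right]
    have e3 : ‖T ξ‖ ^ 2 = ‖((‖T ξ‖ ^ 2 : ℝ) : ℂ)‖ := by
      rw [Complex.norm_real, Real.norm_of_nonneg (by positivity)]
    rw [e3, e1]
    calc ‖∑ i, ⟪a i (T ξ), a i ξ⟫_ℂ‖ ≤ ∑ i, ‖a i (T ξ)‖ * ‖a i ξ‖ :=
          (norm_sum_le _ _).trans (Finset.sum_le_sum fun i _ => norm_inner_le_norm _ _)
      _ ≤ √(∑ i, ‖a i (T ξ)‖ ^ 2) * √(∑ i, ‖a i ξ‖ ^ 2) :=
          Real.sum_mul_le_sqrt_mul_sqrt _ _ _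
      _ ≤ √(c * ‖T ξ‖ ^ 2) * √(c * ‖ξ‖ ^ 2) := by
          gcongr
          · exact h _
          · exact h _
      _ = c * ‖T ξ‖ * ‖ξ‖ := by
          rw [Real.sqrt_mul hc, Real.sqrt_mul hc, Real.sqrt_sq (norm_nonneg _),
            Real.sqrt_sq (norm_nonneg _)]
          have := Real.mul_self_sqrt hc
          calc √c * ‖T ξ‖ * (√c * ‖ξ‖) = (√c * √c) * ‖T ξ‖ * ‖ξ‖ := by ring
            _ = c * ‖T ξ‖ * ‖ξ‖ := by rw [this]
  rcases (norm_nonneg (T ξ)).eq_or_lt with h0 | h0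
  · rw [← h0]
    positivity
  · have : ‖T ξ‖ * ‖T ξ‖ ≤ ‖T ξ‖ * (c * ‖ξ‖) := by nlinarith
    exact le_of_mul_le_mul_left this h0

theorem rowN_eq {ι : Type} [Fintype ι] (a : ι → (H →L[ℂ] H)) :
    rowN a = colN (fun i => star (a i)) := by
  simp [rowN, colN]

theorem norm_add_sq_le {E : Type} [NormedAddCommGroup E] (u v : E) :
    ‖u + v‖ ^ 2 ≤ 2 * ‖u‖ ^ 2 + 2 * ‖v‖ ^ 2 := by
  have h1 := norm_add_le u v
  have h2 := norm_nonneg (u + v)
  nlinarith [sq_nonneg (‖u‖ - ‖v‖)]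

theorem colN_add {ι : Type} [Fintype ι] (a c : ι → (H →L[ℂ] H)) :
    colN (fun i => a i + c i) ≤ 2 * (colN a + colN c) := by
  refine colN_le _ _ (by have := colN_nonneg a; have := colN_nonneg c; positivity) fun ξ => ?_
  calc ∑ i, ‖(a i + c i) ξ‖ ^ 2 ≤ ∑ i, (2 * ‖a i ξ‖ ^ 2 + 2 * ‖c i ξ‖ ^ 2) := by
        refine Finset.sum_le_sum fun i _ => ?_
        exact norm_add_sq_le _ _
    _ = 2 * ∑ i, ‖a i ξ‖ ^ 2 + 2 * ∑ i, ‖c i ξ‖ ^ 2 := by
        rw [Finset.sum_add_distrib, ← Finset.mul_sum, ← Finset.mul_sum]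
    _ ≤ 2 * (colN a * ‖ξ‖ ^ 2) + 2 * (colN c * ‖ξ‖ ^ 2) := by
        gcongr
        · exact sum_sq_le _ _
        · exact sum_sq_le _ _
    _ = 2 * (colN a + colN c) * ‖ξ‖ ^ 2 := by ring

theorem colN_neg {ι : Type} [Fintype ι] (a : ι → (H →L[ℂ] H)) :
    colN (fun i => -a i) = colN a := by
  simp [colN]

theorem colN_sub {ι : Type} [Fintype ι] (a c : ι → (H →L[ℂ] H)) :
    colN (fun i => a i - c i) ≤ 2 * (colN a + colN c) := by
  have h := colN_add a (fun i => -c i)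
  rw [colN_neg] at h
  simpa [sub_eq_add_neg] using h

theorem rowN_sub {ι : Type} [Fintype ι] (a c : ι → (H →L[ℂ] H)) :
    rowN (fun i => a i - c i) ≤ 2 * (rowN a + rowN c) := by
  rw [rowN_eq, rowN_eq, rowN_eq]
  simpa using colN_sub (fun i => star (a i)) (fun i => star (c i))

theorem pr_norm {e : H →L[ℂ] H} (he : IsPr e) (ξ : H) : ‖e ξ‖ ≤ ‖ξ‖ := by
  have h1 : ‖e ξ‖ ^ 2 = (⟪ξ, e ξ⟫_ℂ).re := by
    have h := sum_sq_eq (ι := Unit) (fun _ => e) ξ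
    simp only [Finset.univ_unique, Finset.sum_singleton] at h
    rw [h, he.1, he.2]
  have h2 : (⟪ξ, e ξ⟫_ℂ).re ≤ ‖ξ‖ * ‖e ξ‖ :=
    (Complex.re_le_norm _).trans (norm_inner_le_norm _ _)
  rcases (norm_nonneg (e ξ)).eq_or_lt with h0 | h0
  · rw [← h0]
    positivity
  · have : ‖e ξ‖ * ‖e ξ‖ ≤ ‖e ξ‖ * ‖ξ‖ := by nlinarith
    exact le_of_mul_le_mul_left this h0

theorem colN_comp {ι : Type} [Fintype ι] {e : H →L[ℂ] H} (he : IsPr e) (a : ι → (H →L[ℂ] H)) :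
    colN (fun i => e * a i * e) ≤ colN a := by
  refine colN_le _ _ (colN_nonneg a) fun ξ => ?_
  calc ∑ i, ‖(e * a i * e) ξ‖ ^ 2 ≤ ∑ i, ‖a i (e ξ)‖ ^ 2 := by
        refine Finset.sum_le_sum fun i _ => ?_
        have : (e * a i * e) ξ = e (a i (e ξ)) := rfl
        rw [this]
        gcongr
        exact pr_norm he _
    _ ≤ colN a * ‖e ξ‖ ^ 2 := sum_sq_le _ _
    _ ≤ colN a * ‖ξ‖ ^ 2 := by
        have := colN_nonneg a
        gcongr
        exact pr_norm he _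

theorem rowN_comp {ι : Type} [Fintype ι] {e : H →L[ℂ] H} (he : IsPr e) (a : ι → (H →L[ℂ] H)) :
    rowN (fun i => e * a i * e) ≤ rowN a := by
  rw [rowN_eq, rowN_eq]
  have h := colN_comp he (fun i => star (a i))
  have e1 : (fun i => star (e * a i * e)) = fun i => e * star (a i) * e := by
    funext i
    rw [star_mul, star_mul, he.1, mul_assoc]
  rw [e1]
  exact h

theorem dg_add (n : ℕ) (x y : H →L[ℂ] H) (v : HH (Fin n) H) :
    dg n (x + y) v = dg n x v + dg n y v := by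
  ext i
  simp [dg_apply]

end Sonefaux

open Sonefaux in
theorem prove_S_onef (h1 : K_op) (h2 : R_mod) (h3 : R_cor) (h4 : G_mu) (h5 : S_y) (h6 : S_tr) :
    S_onef := by
  intro H _ _ _ S κ _ _ _ b l r th hm M P C hP z hz hNA k Ω hΩ htr
  have hC : 0 ≤ C := hP.1
  refine ⟨288 * C ^ 2 * ‖Ω‖ ^ 2, by positivity, ?_⟩
  intro ι _ x hx
  have main : ∀ μ : ℝ, 0 < μ → ‖TT l r x‖ ≤ μ →
      ∑ i, ‖dg k (x i) Ω‖ ^ 2 ≤ 288 * C ^ 2 * ‖Ω‖ ^ 2 * μ := by
    intro μ hμ hxμ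
    set B : ℝ := max (colN x) (rowN x) with hB
    have hB0 : 0 ≤ B := le_max_of_le_left (colN_nonneg x)
    obtain ⟨m, hm2⟩ : ∃ m : ℕ, 2 * (B + μ) / μ < 2 ^ m := pow_unbounded_of_one_lt _ (by norm_num)
    obtain ⟨e, heM, hMU, hsum⟩ := h4 H M z hz hNA m
    have hn0 : 0 < 2 ^ m := by positivity
    let i₀ : Fin (2 ^ m) := ⟨0, hn0⟩
    have hze : ∀ i j, z * e i j = e i j := by
      intro i j
      rw [← hsum, Finset.sum_mul, Finset.sum_eq_single i]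
      · rw [hMU.mul]
        simp
      · intro l _ hl
        rw [hMU.mul]
        simp [hl]
      · simp
    have hez : ∀ i j, e i j * z = e i j := by
      intro i j
      rw [← hsum, Finset.mul_sum, Finset.sum_eq_single j]
      · rw [hMU.mul]
        simp
      · intro l _ hl
        rw [hMU.mul]
        simp [Ne.symm hl]
      · simp
    have he0 : IsPr (e i₀ i₀) := ⟨hMU.adj _ _, by rw [hMU.mul]; simp⟩
    set y : ι × Fin (2 ^ m) × Fin (2 ^ m) → (H →L[ℂ] H) :=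
      fun t => (((√((2 ^ m : ℕ) : ℝ))⁻¹ : ℝ) : ℂ) • (e i₀ t.2.1 * x t.1 * e t.2.2 i₀) with hy
    have h5' : colN y ≤ colN x ∧ rowN y ≤ rowN x ∧ ‖TT l r y‖ ≤ ‖TT l r x‖ ∧
        ∀ t, e i₀ i₀ * y t = y t ∧ y t * e i₀ i₀ = y t :=
      h5 H S κ b l r th hm z hz.1 (2 ^ m) e hMU hsum i₀ ι x (fun i => ⟨(hx i).2.1, (hx i).2.2⟩)
    obtain ⟨hy1, hy2, hy3, hy4⟩ := h5'
    obtain ⟨a, c, hac, ha, hc⟩ := h1 H S κ b l r th hm _ y μ 1 (hy3.trans hxμ) one_pos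
    rw [one_mul] at ha
    rw [div_one] at hc
    -- compress
    set a' := fun t => e i₀ i₀ * a t * e i₀ i₀ with ha'
    set c' := fun t => e i₀ i₀ * c t * e i₀ i₀ with hc'
    have hac' : ∀ t, y t = a' t + c' t := by
      intro t
      calc y t = e i₀ i₀ * y t * e i₀ i₀ := by rw [(hy4 t).1, (hy4 t).2]
        _ = a' t + c' t := by rw [hac t, mul_add, add_mul]
    have ca : colN a' ≤ μ := (colN_comp he0 a).trans ha
    have rc : rowN c' ≤ μ := (rowN_comp he0 c).trans hc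
    have hyB1 : colN y ≤ B := hy1.trans (le_max_left _ _)
    have hyB2 : rowN y ≤ B := hy2.trans (le_max_right _ _)
    have ra : rowN a' ≤ 2 * (B + μ) := by
      have e1 : a' = fun t => y t - c' t := by
        funext t
        rw [hac' t, add_sub_cancel_right]
      rw [e1]
      exact (rowN_sub y c').trans (by linarith)
    have cc : colN c' ≤ 2 * (B + μ) := by
      have e1 : c' = fun t => y t - a' t := by
        funext t
        rw [hac' t, add_sub_cancel_left]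
      rw [e1]
      exact (colN_sub y a').trans (by linarith)
    have hea : ∀ t, e i₀ i₀ * a' t = a' t ∧ a' t * e i₀ i₀ = a' t := by
      intro t
      simp only [ha']
      constructor
      · rw [← mul_assoc, ← mul_assoc, he0.2]
      · rw [mul_assoc, he0.2]
    have hec : ∀ t, e i₀ i₀ * c' t = c' t ∧ c' t * e i₀ i₀ = c' t := by
      intro t
      simp only [hc']
      constructor
      · rw [← mul_assoc, ← mul_assoc, he0.2]
      · rw [mul_assoc, he0.2]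
    obtain ⟨Q, hQ⟩ := h2 H M P C hP z hz (2 ^ m) e heM hMU hze
    obtain ⟨hQb, hQM, hQid, hQe⟩ := hQ
    have hu := (h3 H M C hC z hz (2 ^ m) e heM hMU Q ⟨hQb, hQM, hQid, hQe⟩ i₀ _ a' hea).1
    have hv := (h3 H M C hC z hz (2 ^ m) e heM hMU Q ⟨hQb, hQM, hQid, hQe⟩ i₀ _ c' hec).2
    have hn : (0 : ℝ) < ((2 ^ m : ℕ) : ℝ) := by positivity
    have hnle : 2 * (B + μ) / ((2 ^ m : ℕ) : ℝ) ≤ μ := by
      rw [div_le_iff₀ hn]
      push_cast
      rw [div_lt_iff₀ hμ] at hm2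
      linarith
    have hu' : colN (fun t => Q (a' t)) ≤ 6 * C ^ 2 * μ := by
      refine hu.trans ?_
      have : rowN a' / ((2 ^ m : ℕ) : ℝ) ≤ μ := by
        refine le_trans ?_ hnle
        gcongr
      nlinarith [sq_nonneg C]
    have hv' : rowN (fun t => Q (c' t)) ≤ 6 * C ^ 2 * μ := by
      refine hv.trans ?_
      have : colN c' / ((2 ^ m : ℕ) : ℝ) ≤ μ := by
        refine le_trans ?_ hnle
        gcongr
      nlinarith [sq_nonneg C]
    have hcnr : ∀ w : H →L[ℂ] H, e i₀ i₀ * w = w → w * e i₀ i₀ = w → Q w ∈ Cnr M (e i₀ i₀) := by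
      intro w hw1 hw2
      refine ⟨(hQM w).1, ?_, ?_⟩
      · rw [← (hQe i₀ i₀ w).1, hw1]
      · rw [← (hQe i₀ i₀ w).2, hw2]
    have hyM : ∀ t, y t ∈ M ∧ z * y t = y t := by
      intro t
      constructor
      · have : e i₀ t.2.1 * x t.1 * e t.2.2 i₀ ∈ M :=
          mul_mem (mul_mem (heM _ _) (hx _).1) (heM _ _)
        exact M.toStarSubalgebra.smul_mem this _
      · simp only [hy]
        rw [mul_smul_comm, ← mul_assoc, ← mul_assoc, hze]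
    have hQy : ∀ t, y t = Q (a' t) + Q (c' t) := by
      intro t
      rw [← map_add, ← hac' t, hQid _ (hyM t).1 (hyM t).2]
    obtain ⟨t1, t2, t3⟩ := h6 H M z hz k Ω hΩ htr (2 ^ m) e heM hMU hsum i₀
    have t2' := t2 ι x hx
    have t3u := (t3 _ (fun t => Q (a' t)) (fun t => hcnr _ (hea t).1 (hea t).2)).1
    have t3v := (t3 _ (fun t => Q (c' t)) (fun t => hcnr _ (hec t).1 (hec t).2)).2
    set ν₀ := ‖dg k (e i₀ i₀) Ω‖ ^ 2 with hν₀
    have hν0 : 0 ≤ ν₀ := by positivity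
    have hsy : ∑ t, ‖dg k (y t) Ω‖ ^ 2 ≤ 36 * C ^ 2 * μ * ν₀ := by
      calc ∑ t, ‖dg k (y t) Ω‖ ^ 2 ≤
          ∑ t, (2 * ‖dg k (Q (a' t)) Ω‖ ^ 2 + 2 * ‖dg k (Q (c' t)) Ω‖ ^ 2) := by
            refine Finset.sum_le_sum fun t _ => ?_
            rw [hQy t, dg_add]
            exact norm_add_sq_le _ _
        _ = 2 * ∑ t, ‖dg k (Q (a' t)) Ω‖ ^ 2 + 2 * ∑ t, ‖dg k (Q (c' t)) Ω‖ ^ 2 := by
            rw [Finset.sum_add_distrib, ← Finset.mul_sum, ← Finset.mul_sum]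
        _ ≤ 2 * (6 * C ^ 2 * μ * ν₀) + 2 * (2 * (6 * C ^ 2 * μ) * ν₀) := by
            have A1 : ∑ t, ‖dg k (Q (a' t)) Ω‖ ^ 2 ≤ 6 * C ^ 2 * μ * ν₀ :=
              t3u.trans (by gcongr)
            have A2 : ∑ t, ‖dg k (Q (c' t)) Ω‖ ^ 2 ≤ 2 * (6 * C ^ 2 * μ) * ν₀ :=
              t3v.trans (by gcongr)
            linarith
        _ = 36 * C ^ 2 * μ * ν₀ := by ring
    calc ∑ i, ‖dg k (x i) Ω‖ ^ 2 ≤ 4 * ((2 ^ m : ℕ) : ℝ) * ∑ t, ‖dg k (y t) Ω‖ ^ 2 := t2'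
      _ ≤ 4 * ((2 ^ m : ℕ) : ℝ) * (36 * C ^ 2 * μ * ν₀) := by gcongr
      _ = 144 * C ^ 2 * μ * (((2 ^ m : ℕ) : ℝ) * ν₀) := by ring
      _ ≤ 144 * C ^ 2 * μ * (2 * ‖Ω‖ ^ 2) := by gcongr
      _ = 288 * C ^ 2 * ‖Ω‖ ^ 2 * μ := by ring
  set c := 288 * C ^ 2 * ‖Ω‖ ^ 2 with hc
  have hc0 : 0 ≤ c := by positivity
  refine le_of_forall_pos_le_add fun ε hε => ?_
  have h := main (‖TT l r x‖ + ε / (c + 1)) (by positivity) (by
    have : 0 < ε / (c + 1) := by positivity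
    linarith)
  refine h.trans ?_
  rw [mul_add]
  have : c * (ε / (c + 1)) ≤ ε := by
    rw [mul_div_assoc', div_le_iff₀ (by positivity)]
    nlinarith
  linarith

end H68R2.BP
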